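import Pool.Agent.H34.FS.Targets
import Pool.Agent.H1.RQ.VAR

/-!
# Row VRL (board hfs_modules): the second moment of the difference
-/

set_option autoImplicit false

open Finset Pool.Agent.H32.RQ Pool.Agent.H34.FQ

namespace Pool.Agent.H51.HFS

open Pool.Agent.H34.FS Pool.Agent.H1.RQ

section

variable {Q : ℕ} [NeZero Q]

/-- the expectation of a character -/
theorem exf (hFJT : T_FJT) {J : ℕ} (hJ : 1 ≤ J) (hQ : 2 * J ≤ Q) {n : ℕ} (z z' : Fin n → ℤ)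
    (t t' : ℤ) (j k : ZMod Q) :
    ∑ l : Fin n → ZMod Q, ((∏ p, fj Q J (l p) : ℝ) : ℂ) *
      ZMod.stdAddChar (j * vm Q z t l + k * vm Q z' t' l) =
    ZMod.stdAddChar (j * (t : ZMod Q) + k * (t' : ZMod Q)) *
      ((((Q : ℝ) / J) ^ n * rl Q J z z' j k : ℝ) : ℂ) := by
  obtain ⟨h1, -⟩ := hFJT Q J hJ hQ
  obtain ⟨a, ha⟩ : ∃ a : Fin n → ZMod Q,
      a = fun p => j * (z p : ZMod Q) + k * (z' p : ZMod Q) := ⟨_, rfl⟩
  have hphase : ∀ l : Fin n → ZMod Q, j * vm Q z t l + k * vm Q z' t' l =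
      (j * (t : ZMod Q) + k * (t' : ZMod Q)) + ∑ p, a p * l p := by
    intro l
    unfold vm
    have h2 : ∑ p, a p * l p = j * ∑ p, l p * (z p : ZMod Q) + k * ∑ p, l p * (z' p : ZMod Q) := by
      rw [Finset.mul_sum, Finset.mul_sum, ← Finset.sum_add_distrib, ha]
      refine Finset.sum_congr rfl fun p _ => ?_
      ring
    rw [h2]
    ring
  have hterm : ∀ l : Fin n → ZMod Q, ((∏ p, fj Q J (l p) : ℝ) : ℂ) *
      ZMod.stdAddChar (j * vm Q z t l + k * vm Q z' t' l) =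
      ZMod.stdAddChar (j * (t : ZMod Q) + k * (t' : ZMod Q)) *
        ∏ p, ((fj Q J (l p) : ℝ) : ℂ) * ZMod.stdAddChar (a p * l p) := by
    intro l
    rw [hphase l, AddChar.map_add_eq_mul, e_sum, Complex.ofReal_prod, Finset.prod_mul_distrib]
    ring
  rw [Finset.sum_congr rfl fun l _ => hterm l, ← Finset.mul_sum]
  congr 1
  rw [sum_prod_pi fun (p : Fin n) (u : ZMod Q) =>
      ((fj Q J u : ℝ) : ℂ) * ZMod.stdAddChar (a p * u),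
    Finset.prod_congr rfl fun p _ => h1 (a p), ← Complex.ofReal_prod, Finset.prod_mul_distrib,
    Finset.prod_const, Finset.card_univ, Fintype.card_fin]
  unfold rl
  rw [ha]

/-- the bound of a correlation -/
theorem corr (hFJT : T_FJT) (hFJB : T_FJB) {J : ℕ} (hJ : 1 ≤ J) (hQ : 2 * J ≤ Q) {n : ℕ}
    (z z' : Fin n → ℤ) (t t' : ℤ) (s τ σ φ ψ : ZMod Q → ℝ)
    (hφ : ∀ v : ZMod Q, (φ v : ℂ) = (Q : ℂ)⁻¹ * ∑ j : ZMod Q, (s j : ℂ) *
      ZMod.stdAddChar (j * v))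
    (hψ : ∀ v : ZMod Q, (ψ v : ℂ) = (Q : ℂ)⁻¹ * ∑ j : ZMod Q, (τ j : ℂ) *
      ZMod.stdAddChar (j * v))
    (hs : ∀ j, |s j| ≤ σ j) (hτ : ∀ j, |τ j| ≤ 1) :
    |∑ l : Fin n → ZMod Q, (∏ p, fj Q J (l p)) * (φ (vm Q z t l) * ψ (vm Q z' t' l))| ≤
      ((Q : ℝ) / J) ^ n * ((∑ j : ZMod Q, ∑ k : ZMod Q, σ j * rl Q J z z' j k) / (Q : ℝ) ^ 2) := by
  have hQ0 : (0 : ℝ) < Q := by exact_mod_cast Nat.pos_of_ne_zero (NeZero.ne Q)
  have hrl : ∀ j k, 0 ≤ rl Q J z z' j k := fun j k =>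
    Finset.prod_nonneg fun p _ => ((hFJB Q J hJ).2.1 _).1
  have h1 : ((∑ l : Fin n → ZMod Q, (∏ p, fj Q J (l p)) *
      (φ (vm Q z t l) * ψ (vm Q z' t' l)) : ℝ) : ℂ) =
      (Q : ℂ)⁻¹ ^ 2 * ∑ j : ZMod Q, ∑ k : ZMod Q, ((s j : ℂ) * (τ k : ℂ)) *
        (ZMod.stdAddChar (j * (t : ZMod Q) + k * (t' : ZMod Q)) *
          ((((Q : ℝ) / J) ^ n * rl Q J z z' j k : ℝ) : ℂ)) := by
    have h2 : ∀ l : Fin n → ZMod Q, (((∏ p, fj Q J (l p)) *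
        (φ (vm Q z t l) * ψ (vm Q z' t' l)) : ℝ) : ℂ) =
        (Q : ℂ)⁻¹ ^ 2 * ∑ j : ZMod Q, ∑ k : ZMod Q, ((s j : ℂ) * (τ k : ℂ)) *
          (((∏ p, fj Q J (l p) : ℝ) : ℂ) *
            ZMod.stdAddChar (j * vm Q z t l + k * vm Q z' t' l)) := by
      intro l
      rw [Complex.ofReal_mul, Complex.ofReal_mul, hφ, hψ]
      have e4 : ∀ (a b c d : ℂ), a * ((b * c) * (b * d)) = b ^ 2 * (a * (c * d)) := by
        intro a b c d
        ring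
      rw [e4, Finset.sum_mul_sum, Finset.mul_sum]
      congr 1
      refine Finset.sum_congr rfl fun j _ => ?_
      rw [Finset.mul_sum]
      refine Finset.sum_congr rfl fun k _ => ?_
      rw [AddChar.map_add_eq_mul]
      ring
    rw [Complex.ofReal_sum, Finset.sum_congr rfl fun l _ => h2 l, ← Finset.mul_sum,
      Finset.sum_comm]
    congr 1
    refine Finset.sum_congr rfl fun j _ => ?_
    rw [Finset.sum_comm]
    refine Finset.sum_congr rfl fun k _ => ?_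
    rw [← Finset.mul_sum, exf hFJT hJ hQ]
  have h3 : |∑ l : Fin n → ZMod Q, (∏ p, fj Q J (l p)) *
      (φ (vm Q z t l) * ψ (vm Q z' t' l))| = ‖((∑ l : Fin n → ZMod Q, (∏ p, fj Q J (l p)) *
      (φ (vm Q z t l) * ψ (vm Q z' t' l)) : ℝ) : ℂ)‖ := by
    rw [Complex.norm_real, Real.norm_eq_abs]
  rw [h3, h1, norm_mul, norm_pow, norm_inv, Complex.norm_natCast]
  have h5 : ‖∑ j : ZMod Q, ∑ k : ZMod Q, ((s j : ℂ) * (τ k : ℂ)) *
        (ZMod.stdAddChar (j * (t : ZMod Q) + k * (t' : ZMod Q)) *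
          ((((Q : ℝ) / J) ^ n * rl Q J z z' j k : ℝ) : ℂ))‖ ≤
      ∑ j : ZMod Q, ∑ k : ZMod Q, ((Q : ℝ) / J) ^ n * (σ j * rl Q J z z' j k) := by
    refine (norm_sum_le _ _).trans (Finset.sum_le_sum fun j _ => ?_)
    refine (norm_sum_le _ _).trans (Finset.sum_le_sum fun k _ => ?_)
    have h6 : 0 ≤ ((Q : ℝ) / J) ^ n * rl Q J z z' j k := mul_nonneg (by positivity) (hrl j k)
    rw [norm_mul, norm_mul, norm_mul, Complex.norm_real, Complex.norm_real, Complex.norm_real,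
      Real.norm_eq_abs, Real.norm_eq_abs, Real.norm_eq_abs, abs_of_nonneg h6]
    have h7 : ‖(ZMod.stdAddChar (j * (t : ZMod Q) + k * (t' : ZMod Q)) : ℂ)‖ = 1 :=
      AddChar.norm_apply _ _
    rw [h7, one_mul]
    calc |s j| * |τ k| * (((Q : ℝ) / J) ^ n * rl Q J z z' j k)
        ≤ σ j * 1 * (((Q : ℝ) / J) ^ n * rl Q J z z' j k) := by
          apply mul_le_mul_of_nonneg_right _ h6
          exact mul_le_mul (hs j) (hτ k) (abs_nonneg _) ((abs_nonneg _).trans (hs j))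
      _ = ((Q : ℝ) / J) ^ n * (σ j * rl Q J z z' j k) := by ring
  calc ((Q : ℝ)⁻¹) ^ 2 * ‖∑ j : ZMod Q, ∑ k : ZMod Q, ((s j : ℂ) * (τ k : ℂ)) *
        (ZMod.stdAddChar (j * (t : ZMod Q) + k * (t' : ZMod Q)) *
          ((((Q : ℝ) / J) ^ n * rl Q J z z' j k : ℝ) : ℂ))‖
      ≤ ((Q : ℝ)⁻¹) ^ 2 * ∑ j : ZMod Q, ∑ k : ZMod Q,
          ((Q : ℝ) / J) ^ n * (σ j * rl Q J z z' j k) := by
        apply mul_le_mul_of_nonneg_left h5
        positivity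
    _ = _ := by
        simp only [← Finset.mul_sum]
        field_simp

end

theorem pf_VRL (hKPB : T_KPB) (hKPL : T_KPL) (hFJB : T_FJB) (hFJT : T_FJT) : T_VRL := by
  intro r n Q J W T _ S z t hJ hQ hW hWQ hTQ hWT
  have hκ := (hKPB Q W T hW hWQ hTQ hWT).1
  have hl := hKPL Q W T hW hWQ hTQ hWT
  have hQ0 : (0 : ℝ) < Q := by exact_mod_cast Nat.pos_of_ne_zero (NeZero.ne Q)
  -- the three functions
  obtain ⟨φa, hφa⟩ : ∃ φa : ZMod Q → ℝ, φa = fun v => if v = 0 then 1 else 0 := ⟨_, rfl⟩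
  obtain ⟨φb, hφb⟩ : ∃ φb : ZMod Q → ℝ, φb = lam Q W T := ⟨_, rfl⟩
  obtain ⟨κ, hκd⟩ : ∃ κ : ZMod Q → ℝ, κ = kap Q W T := ⟨_, rfl⟩
  rw [← hκd] at hκ
  have ta : ∀ v : ZMod Q, (φa v : ℂ) = (Q : ℂ)⁻¹ * ∑ j : ZMod Q, (((fun _ => 1 : ZMod Q → ℝ) j : ℝ) : ℂ) *
      ZMod.stdAddChar (j * v) := by
    intro v
    have h := ind_eq v
    rw [hφa]
    simp only [Complex.ofReal_one, one_mul]
    rw [← h]
    split_ifs <;> simp
  have tb : ∀ v : ZMod Q, (φb v : ℂ) = (Q : ℂ)⁻¹ * ∑ j : ZMod Q, (κ j : ℂ) *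
      ZMod.stdAddChar (j * v) := by
    rw [hκd, hφb]
    exact hl
  have tc : ∀ v : ZMod Q, ((φa v - φb v : ℝ) : ℂ) = (Q : ℂ)⁻¹ * ∑ j : ZMod Q,
      ((1 - κ j : ℝ) : ℂ) * ZMod.stdAddChar (j * v) := by
    intro v
    rw [Complex.ofReal_sub, ta v, tb v, ← mul_sub, ← Finset.sum_sub_distrib]
    congr 1
    refine Finset.sum_congr rfl fun j _ => ?_
    push_cast
    ring
  have s1 : ∀ j : ZMod Q, |(fun _ => 1 : ZMod Q → ℝ) j| ≤ 1 := fun j => by simp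
  have sκ : ∀ j : ZMod Q, |κ j| ≤ 1 := fun j => abs_le.2 ⟨by linarith [(hκ j).1], (hκ j).2⟩
  have sc : ∀ j : ZMod Q, |1 - κ j| ≤ 1 - κ j := fun j => by
    rw [abs_of_nonneg]; linarith [(hκ j).2]
  -- sums over one form
  obtain ⟨P, hP⟩ : ∃ P : Fin 2 → (Fin r → ℤ) → (Fin r → ℤ) → (ZMod Q → ℝ) → (ZMod Q → ℝ) → ℝ,
    P = fun i x y φ ψ => ∑ l : Fin n → ZMod Q, (∏ p, fj Q J (l p)) *
      (φ (vm Q (z x) (t i x) l) * ψ (vm Q (z y) (t i y) l)) := ⟨_, rfl⟩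
  have hpl : ∀ (i : Fin 2) (x y : Fin r → ℤ) (φ ψ s τ : ZMod Q → ℝ),
      (∀ v : ZMod Q, (φ v : ℂ) = (Q : ℂ)⁻¹ * ∑ j : ZMod Q, (s j : ℂ) *
        ZMod.stdAddChar (j * v)) →
      (∀ v : ZMod Q, (ψ v : ℂ) = (Q : ℂ)⁻¹ * ∑ j : ZMod Q, (τ j : ℂ) *
        ZMod.stdAddChar (j * v)) → (∀ j, |s j| ≤ 1) → (∀ j, |τ j| ≤ 1) →
      |P i x y φ ψ| ≤ ((Q : ℝ) / J) ^ n * pl Q J (z x) (z y) := by
    intro i x y φ ψ s τ h1 h2 h3 h4
    have h := corr hFJT hFJB hJ hQ (z x) (z y) (t i x) (t i y) s τ (fun _ => 1) φ ψ h1 h2 h3 h4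
    rw [hP]
    unfold pl
    simp only [one_mul] at h
    exact h
  have hpkl : ∀ (i : Fin 2) (x y : Fin r → ℤ) (ψ τ : ZMod Q → ℝ),
      (∀ v : ZMod Q, (ψ v : ℂ) = (Q : ℂ)⁻¹ * ∑ j : ZMod Q, (τ j : ℂ) *
        ZMod.stdAddChar (j * v)) → (∀ j, |τ j| ≤ 1) →
      |P i x y (fun v => φa v - φb v) ψ| ≤ ((Q : ℝ) / J) ^ n * pkl Q J W T (z x) (z y) := by
    intro i x y ψ τ h2 h4
    have h := corr hFJT hFJB hJ hQ (z x) (z y) (t i x) (t i y) (fun j => 1 - κ j) τ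
      (fun j => 1 - κ j) (fun v => φa v - φb v) ψ tc h2 sc h4
    rw [hP]
    unfold pkl
    rw [hκd] at h
    exact h
  -- the product structure
  have hprod : ∀ (x y : Fin r → ℤ) (φ₀ φ₁ ψ₀ ψ₁ : ZMod Q → ℝ),
      ∑ L : Fin 2 → Fin n → ZMod Q, wL Q J L *
        ((φ₀ (vm Q (z x) (t 0 x) (L 0)) * φ₁ (vm Q (z x) (t 1 x) (L 1))) *
          (ψ₀ (vm Q (z y) (t 0 y) (L 0)) * ψ₁ (vm Q (z y) (t 1 y) (L 1)))) =
      P 0 x y φ₀ ψ₀ * P 1 x y φ₁ ψ₁ := by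
    intro x y φ₀ φ₁ ψ₀ ψ₁
    obtain ⟨g, hg⟩ : ∃ g : Fin 2 → (Fin n → ZMod Q) → ℝ, g = fun i l => (∏ p, fj Q J (l p)) *
      (if i = 0 then φ₀ (vm Q (z x) (t 0 x) l) * ψ₀ (vm Q (z y) (t 0 y) l) else
        φ₁ (vm Q (z x) (t 1 x) l) * ψ₁ (vm Q (z y) (t 1 y) l)) := ⟨_, rfl⟩
    have h := sum_prod_pi g
    rw [Fin.prod_univ_two] at h
    have e0 : ∑ l, g 0 l = P 0 x y φ₀ ψ₀ := by
      rw [hg, hP]
      simp
    have e1 : ∑ l, g 1 l = P 1 x y φ₁ ψ₁ := by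
      rw [hg, hP]
      simp
    rw [← e0, ← e1, ← h]
    refine Finset.sum_congr rfl fun L _ => ?_
    rw [Fin.prod_univ_two, hg]
    unfold wL
    rw [Fin.prod_univ_two]
    simp
    ring
  -- the difference for one vector
  obtain ⟨u, hu⟩ : ∃ u : (Fin r → ℤ) → (Fin 2 → Fin n → ZMod Q) → ℝ, u = fun x L =>
      (φa (vm Q (z x) (t 0 x) (L 0)) * φa (vm Q (z x) (t 1 x) (L 1))) -
        φb (vm Q (z x) (t 0 x) (L 0)) * φb (vm Q (z x) (t 1 x) (L 1)) := ⟨_, rfl⟩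
  have hdiff : ∀ L : Fin 2 → Fin n → ZMod Q, nL Q S z t L - lL Q W T S z t L =
      ∑ x ∈ S, u x L := by
    intro L
    unfold nL lL
    rw [← Finset.sum_sub_distrib, hu]
    refine Finset.sum_congr rfl fun x _ => ?_
    simp only [Fin.prod_univ_two, Fin.forall_fin_two, hφa, hφb]
    congr 1
    by_cases h0 : vm Q (z x) (t 0 x) (L 0) = 0 <;> by_cases h1 : vm Q (z x) (t 1 x) (L 1) = 0 <;>
      simp [h0, h1]
  have hcor : ∀ x y : Fin r → ℤ, ∑ L : Fin 2 → Fin n → ZMod Q, wL Q J L * (u x L * u y L) ≤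
      ((Q : ℝ) / J) ^ (2 * n) * (4 * pkl Q J W T (z x) (z y) * pl Q J (z x) (z y)) := by
    intro x y
    obtain ⟨φc, hφc⟩ : ∃ φc : ZMod Q → ℝ, φc = fun v => φa v - φb v := ⟨_, rfl⟩
    have e1 : ∑ L : Fin 2 → Fin n → ZMod Q, wL Q J L * (u x L * u y L) =
        P 0 x y φc φa * P 1 x y φa φa - P 0 x y φc φb * P 1 x y φa φb +
          (P 0 x y φb φa * P 1 x y φc φa - P 0 x y φb φb * P 1 x y φc φb) := by
      rw [← hprod, ← hprod, ← hprod, ← hprod, ← Finset.sum_sub_distrib, ← Finset.sum_sub_distrib,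
        ← Finset.sum_add_distrib]
      refine Finset.sum_congr rfl fun L _ => ?_
      rw [hu, hφc]
      ring
    have bk : ∀ (i : Fin 2) (ψ τ : ZMod Q → ℝ),
      (∀ v : ZMod Q, (ψ v : ℂ) = (Q : ℂ)⁻¹ * ∑ j : ZMod Q, (τ j : ℂ) *
        ZMod.stdAddChar (j * v)) → (∀ j, |τ j| ≤ 1) →
      |P i x y φc ψ| ≤ ((Q : ℝ) / J) ^ n * pkl Q J W T (z x) (z y) := by
      intro i ψ τ h1 h2
      rw [hφc]
      exact hpkl i x y ψ τ h1 h2
    have m1 : |P 0 x y φc φa * P 1 x y φa φa| ≤ (((Q : ℝ) / J) ^ n * pkl Q J W T (z x) (z y)) *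
        (((Q : ℝ) / J) ^ n * pl Q J (z x) (z y)) := by
      rw [abs_mul]
      exact mul_le_mul (bk 0 φa _ ta s1) (hpl 1 x y φa φa _ _ ta ta s1 s1) (abs_nonneg _)
        ((abs_nonneg _).trans (bk 0 φa _ ta s1))
    have m2 : |P 0 x y φc φb * P 1 x y φa φb| ≤ (((Q : ℝ) / J) ^ n * pkl Q J W T (z x) (z y)) *
        (((Q : ℝ) / J) ^ n * pl Q J (z x) (z y)) := by
      rw [abs_mul]
      exact mul_le_mul (bk 0 φb _ tb sκ) (hpl 1 x y φa φb _ _ ta tb s1 sκ) (abs_nonneg _)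
        ((abs_nonneg _).trans (bk 0 φb _ tb sκ))
    have m3 : |P 0 x y φb φa * P 1 x y φc φa| ≤ (((Q : ℝ) / J) ^ n * pkl Q J W T (z x) (z y)) *
        (((Q : ℝ) / J) ^ n * pl Q J (z x) (z y)) := by
      rw [mul_comm (P 0 x y φb φa), abs_mul]
      exact mul_le_mul (bk 1 φa _ ta s1) (hpl 0 x y φb φa _ _ tb ta sκ s1) (abs_nonneg _)
        ((abs_nonneg _).trans (bk 1 φa _ ta s1))
    have m4 : |P 0 x y φb φb * P 1 x y φc φb| ≤ (((Q : ℝ) / J) ^ n * pkl Q J W T (z x) (z y)) *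
        (((Q : ℝ) / J) ^ n * pl Q J (z x) (z y)) := by
      rw [mul_comm (P 0 x y φb φb), abs_mul]
      exact mul_le_mul (bk 1 φb _ tb sκ) (hpl 0 x y φb φb _ _ tb tb sκ sκ) (abs_nonneg _)
        ((abs_nonneg _).trans (bk 1 φb _ tb sκ))
    rw [e1]
    have hpow : ((Q : ℝ) / J) ^ (2 * n) = ((Q : ℝ) / J) ^ n * ((Q : ℝ) / J) ^ n := by
      rw [two_mul, pow_add]
    rw [hpow]
    have b1 := (abs_le.1 m1).2
    have b2 := (abs_le.1 m2).1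
    have b3 := (abs_le.1 m3).2
    have b4 := (abs_le.1 m4).1
    nlinarith [b1, b2, b3, b4]
  -- conclusion
  have hLHS : ∑ L : Fin 2 → Fin n → ZMod Q, wL Q J L * (nL Q S z t L - lL Q W T S z t L) ^ 2 =
      ∑ x ∈ S, ∑ y ∈ S, ∑ L : Fin 2 → Fin n → ZMod Q, wL Q J L * (u x L * u y L) := by
    have e1 : ∀ L : Fin 2 → Fin n → ZMod Q, wL Q J L * (nL Q S z t L - lL Q W T S z t L) ^ 2 =
        ∑ x ∈ S, ∑ y ∈ S, wL Q J L * (u x L * u y L) := by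
      intro L
      rw [hdiff L, sq, Finset.sum_mul_sum, Finset.mul_sum]
      refine Finset.sum_congr rfl fun x _ => ?_
      rw [Finset.mul_sum]
    rw [Finset.sum_congr rfl fun L _ => e1 L, Finset.sum_comm]
    refine Finset.sum_congr rfl fun x _ => ?_
    rw [Finset.sum_comm]
  rw [hLHS, Finset.mul_sum]
  refine Finset.sum_le_sum fun x _ => ?_
  rw [Finset.mul_sum]
  exact Finset.sum_le_sum fun y _ => hcor x y

end Pool.Agent.H51.HFS
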